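import Pool.Agent.H323Z.MCB

set_option autoImplicit false

namespace Pool.Agent.Results.MP_728c4a_co.ASplitExact

open Pool.Agent.H323Z.MC

/-- For every `n ≥ 3`, every edge `e = {a,b}` and every integer `d` the sequence
`0 → H_d(M_n ∖ e) → H_d(M_n) → H_{d-1}(M([n] ∖ {a,b})) → 0` (inclusion; `e ∧ τ ↦ τ`)
is split exact. -/
theorem result (n : ℕ) (hn : 3 ≤ n) (a b : Fin n) (hab : a ≠ b) (d : ℤ) :
    DeletionSequenceSplits (matchingComplex (Finset.univ : Finset (Fin n)))
      (matchingComplex ({a, b} : Finset (Fin n))ᶜ) {a, b} d := by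
  have h : (({a, b} : Finset (Fin n))ᶜ).Nonempty := by
    rw [← Finset.card_pos, Finset.card_compl, Finset.card_pair hab, Fintype.card_fin]
    omega
  obtain ⟨c₀, hc₀⟩ := h
  exact split_exact a b c₀ hab hc₀ d

end Pool.Agent.Results.MP_728c4a_co.ASplitExact
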